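import Pool.Agent.H37.KA.Fields

/-!
# Leading monomials of products of maximal minors
-/

set_option autoImplicit false

open MvPolynomial

namespace Pool.Agent.H37.KA

open Pool.Agent.H47.KB (wt)

/-- `a` contains `p` disjoint strictly increasing chains (with multiplicities). -/
def Packed {n k : ℕ} (p : ℕ) (a : Fin k × Fin n →₀ ℕ) : Prop :=
  ∃ f : Fin p → Fin n → Fin k, (∀ l, StrictMono (f l)) ∧
    ∀ x : Fin k × Fin n, Nat.card {l // f l x.2 = x.1} ≤ a x

/-- the weight `∑ a_{ji} j i` -/
def ph {n k : ℕ} : (Fin k × Fin n →₀ ℕ) →+ ℕ where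
  toFun a := ∑ x, a x * ((x.1 : ℕ) * (x.2 : ℕ))
  map_zero' := by simp
  map_add' a b := by simp [add_mul, Finset.sum_add_distrib]

lemma ph_single {n k : ℕ} (x : Fin k × Fin n) : ph (Finsupp.single x 1) = (x.1 : ℕ) * (x.2 : ℕ) := by
  classical
  show ∑ y, (Finsupp.single x 1) y * ((y.1 : ℕ) * (y.2 : ℕ)) = _
  rw [Finset.sum_eq_single x]
  · simp
  · intro y _ hy
    rw [Finsupp.single_eq_of_ne hy]
    simp
  · simp

/-- `a` is the leading exponent of `g`, with coefficient 1 -/
def Lead {n k : ℕ} (g : MvPolynomial (Fin k × Fin n) ℂ) (a : Fin k × Fin n →₀ ℕ) : Prop :=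
  coeff a g = 1 ∧ ∀ b, coeff b g ≠ 0 → b = a ∨ ph b < ph a

lemma Lead.mul {n k : ℕ} {g h : MvPolynomial (Fin k × Fin n) ℂ} {a b : Fin k × Fin n →₀ ℕ}
    (hg : Lead g a) (hh : Lead h b) : Lead (g * h) (a + b) := by
  classical
  have key : ∀ u v : Fin k × Fin n →₀ ℕ, coeff u g * coeff v h ≠ 0 →
      (u = a ∧ v = b) ∨ ph (u + v) < ph (a + b) := by
    intro u v huv
    have h1 := hg.2 u (left_ne_zero_of_mul huv)
    have h2 := hh.2 v (right_ne_zero_of_mul huv)
    rw [map_add, map_add]
    rcases h1 with rfl | h1 <;> rcases h2 with rfl | h2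
    · exact Or.inl ⟨rfl, rfl⟩
    · right; omega
    · right; omega
    · right; omega
  constructor
  · rw [coeff_mul, Finset.sum_eq_single (a, b)]
    · simp [hg.1, hh.1]
    · rintro ⟨u, v⟩ huv hne
      rw [Finset.HasAntidiagonal.mem_antidiagonal] at huv
      simp only at huv ⊢
      by_contra h
      rcases key u v h with ⟨rfl, rfl⟩ | h'
      · exact hne rfl
      · rw [huv] at h'
        exact lt_irrefl _ h'
    · intro h
      apply absurd _ h
      rw [Finset.HasAntidiagonal.mem_antidiagonal]
  · intro c hc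
    rw [coeff_mul] at hc
    obtain ⟨⟨u, v⟩, huv, hne⟩ := Finset.exists_ne_zero_of_sum_ne_zero hc
    rw [Finset.HasAntidiagonal.mem_antidiagonal] at huv
    simp only at huv hne
    rcases key u v hne with ⟨rfl, rfl⟩ | h'
    · exact Or.inl huv.symm
    · right
      rwa [huv] at h'

lemma Lead.monomial {n k : ℕ} (a : Fin k × Fin n →₀ ℕ) :
    Lead (MvPolynomial.monomial a (1 : ℂ)) a := by
  classical
  constructor
  · simp
  · intro b hb
    rw [coeff_monomial] at hb
    left
    by_contra h
    exact hb (if_neg fun h' => h h'.symm)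

lemma Lead.one {n k : ℕ} : Lead (1 : MvPolynomial (Fin k × Fin n) ℂ) 0 := by
  have := Lead.monomial (n := n) (k := k) 0
  rwa [MvPolynomial.monomial_zero', map_one] at this

/-- exponent of the diagonal monomial -/
noncomputable def ex {n k : ℕ} (c : Fin n → Fin k) : Fin k × Fin n →₀ ℕ := ∑ i, Finsupp.single (c i, i) 1

lemma ex_apply {n k : ℕ} (c : Fin n → Fin k) (x : Fin k × Fin n) :
    ex c x = if c x.2 = x.1 then 1 else 0 := by
  classical
  unfold ex
  rw [Finsupp.finsetSum_apply, Finset.sum_eq_single x.2]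
  · rw [Finsupp.single_apply]
    congr 1
    rw [Prod.ext_iff]
    simp
  · intro i _ hi
    rw [Finsupp.single_apply, if_neg]
    rintro rfl
    exact hi rfl
  · simp

lemma ph_ex {n k : ℕ} (c : Fin n → Fin k) : ph (ex c) = ∑ i, (c i : ℕ) * (i : ℕ) := by
  unfold ex
  rw [map_sum]
  exact Finset.sum_congr rfl fun i _ => ph_single _

lemma prod_X {n k : ℕ} (c : Fin n → Fin k) :
    ∏ i, (X (c i, i) : MvPolynomial (Fin k × Fin n) ℂ) = MvPolynomial.monomial (ex c) 1 := by
  unfold ex
  rw [MvPolynomial.monomial_sum_one]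
  rfl

lemma minor_eq {n k : ℕ} (c : Fin n → Fin k) :
    minor c = ∑ σ : Equiv.Perm (Fin n), Equiv.Perm.sign σ • MvPolynomial.monomial (ex fun i => c (σ i)) (1 : ℂ) := by
  unfold minor
  rw [Matrix.det_apply]
  refine Finset.sum_congr rfl fun σ _ => ?_
  rw [← prod_X]
  rfl

lemma ex_lt {n k : ℕ} {c : Fin n → Fin k} (hc : StrictMono c) {σ : Equiv.Perm (Fin n)} (hσ : σ ≠ 1) :
    ph (ex fun i => c (σ i)) < ph (ex c) := by
  rw [ph_ex, ph_ex]
  have hmono : Monovary (fun i => (c i : ℕ)) (fun i : Fin n => (i : ℕ)) := by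
    intro i j hij
    have : i < j := hij
    exact (hc this).le
  have h := (Monovary.sum_comp_perm_mul_lt_sum_mul_iff (σ := σ) hmono).2 ?_
  · exact h
  · intro hm
    apply hσ
    have h2 : StrictMono σ := by
      intro i j hij
      have h3 : (c (σ i) : ℕ) ≤ c (σ j) := hm (show (i : ℕ) < j from hij)
      have h4 : σ i ≤ σ j := hc.le_iff_le.1 h3
      exact lt_of_le_of_ne h4 fun h => hij.ne (σ.injective h)
    have h3 : (σ : Fin n → Fin n) = id := (h2.range_inj strictMono_id).1 (by
      rw [Set.range_id, σ.surjective.range_eq])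
    ext i
    rw [h3]
    rfl

lemma Lead.minor {n k : ℕ} {c : Fin n → Fin k} (hc : StrictMono c) : Lead (KA.minor c) (ex c) := by
  classical
  have hco : ∀ b, coeff b (KA.minor c) = ∑ σ : Equiv.Perm (Fin n),
      Equiv.Perm.sign σ • (if (ex fun i => c (σ i)) = b then (1 : ℂ) else 0) := by
    intro b
    rw [minor_eq, coeff_sum]
    refine Finset.sum_congr rfl fun σ _ => ?_
    rw [← coeff_monomial]
    rcases Int.units_eq_one_or (Equiv.Perm.sign σ) with h | h <;> rw [h]
    · simp
    · rw [Units.neg_smul, Units.neg_smul, one_smul, one_smul, coeff_neg]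
  constructor
  · rw [hco, Finset.sum_eq_single 1]
    · simp
    · intro σ _ hσ
      rw [if_neg]
      · simp
      · intro h
        have := ex_lt hc hσ
        rw [h] at this
        exact lt_irrefl _ this
    · simp
  · intro b hb
    rw [hco] at hb
    obtain ⟨σ, _, hσ⟩ := Finset.exists_ne_zero_of_sum_ne_zero hb
    by_cases h : σ = 1
    · subst h
      left
      by_contra hne
      apply hσ
      rw [if_neg]
      · simp
      · intro h'
        exact hne h'.symm
    · right
      have h1 : (ex fun i => c (σ i)) = b := by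
        by_contra hne
        apply hσ
        rw [if_neg hne]
        simp
      rw [← h1]
      exact ex_lt hc h

lemma weight_ex {n k : ℕ} (c : Fin n → Fin k) : Finsupp.weight (wt n k) (ex c) = ∑ i, ((c i : ℕ) + 1) := by
  unfold ex
  rw [map_sum]
  refine Finset.sum_congr rfl fun i _ => ?_
  rw [Finsupp.weight_single]
  simp [wt]

lemma minor_wh {n k : ℕ} (c : Fin n → Fin k) :
    IsWeightedHomogeneous (wt n k) (KA.minor c) (Finsupp.weight (wt n k) (ex c)) := by
  rw [minor_eq]
  refine IsWeightedHomogeneous.sum _ _ _ fun σ _ => ?_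
  have h1 : IsWeightedHomogeneous (wt n k) (MvPolynomial.monomial (ex fun i => c (σ i)) (1 : ℂ))
      (Finsupp.weight (wt n k) (ex c)) := by
    apply isWeightedHomogeneous_monomial
    rw [weight_ex, weight_ex]
    exact Equiv.sum_comp σ fun i => ((c i : ℕ) + 1)
  rcases Int.units_eq_one_or (Equiv.Perm.sign σ) with h | h <;> rw [h]
  · simpa using h1
  · have := (weightedHomogeneousSubmodule ℂ (wt n k) (Finsupp.weight (wt n k) (ex c))).neg_mem
      ((mem_weightedHomogeneousSubmodule _ _ _ _).2 h1)
    simpa using (mem_weightedHomogeneousSubmodule _ _ _ _).1 this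

/-- An element of the good part with leading exponent `a`. -/
lemma exists_good {n k m p : ℕ} (a : Fin k × Fin n →₀ ℕ) (ha : Finsupp.weight (wt n k) a = m)
    (hp : Packed p a) : ∃ g ∈ good n k m p, Lead g a := by
  classical
  obtain ⟨f, hf, hle⟩ := hp
  have hsum : ∀ s : Finset (Fin p), Lead (∏ l ∈ s, KA.minor (f l)) (∑ l ∈ s, ex (f l)) := by
    intro s
    induction s using Finset.induction_on with
    | empty => simpa using Lead.one
    | insert l s hl ih =>
      rw [Finset.prod_insert hl, Finset.sum_insert hl]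
      exact (Lead.minor (hf l)).mul ih
  have hle' : ∑ l, ex (f l) ≤ a := by
    intro x
    refine le_trans (le_of_eq ?_) (hle x)
    rw [Finsupp.finsetSum_apply, Nat.card_eq_fintype_card, Fintype.card_subtype, Finset.card_filter]
    exact Finset.sum_congr rfl fun l _ => ex_apply _ _
  refine ⟨(∏ l, KA.minor (f l)) * MvPolynomial.monomial (a - ∑ l, ex (f l)) 1, ?_, ?_⟩
  · refine ⟨?_, ?_⟩
    · show _ ∈ (minors n k) ^ p
      apply Ideal.mul_mem_right
      have h1 : ∏ l : Fin p, KA.minor (f l) ∈ ∏ _l : Fin p, minors n k :=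
        Ideal.prod_mem_prod fun l _ => Ideal.subset_span ⟨_, rfl⟩
      simpa using h1
    · show _ ∈ weightedHomogeneousSubmodule ℂ (wt n k) m
      rw [mem_weightedHomogeneousSubmodule]
      have h1 : IsWeightedHomogeneous (wt n k) (∏ l, KA.minor (f l))
          (∑ l, Finsupp.weight (wt n k) (ex (f l))) :=
        IsWeightedHomogeneous.prod _ _ _ fun l _ => minor_wh _
      have h2 := h1.mul (isWeightedHomogeneous_monomial (wt n k) (a - ∑ l, ex (f l)) (1 : ℂ) rfl)
      rw [← map_sum, ← map_add, add_tsub_cancel_of_le hle', ha] at h2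
      exact h2
  · have h1 := (hsum Finset.univ).mul (Lead.monomial (a - ∑ l, ex (f l)))
    rwa [add_tsub_cancel_of_le hle'] at h1

lemma finite_weight (n k m : ℕ) : {a : Fin k × Fin n →₀ ℕ | Finsupp.weight (wt n k) a = m}.Finite := by
  have h : {f : Fin k × Fin n → ℕ | ∀ x, f x ≤ m}.Finite := by
    have : {f : Fin k × Fin n → ℕ | ∀ x, f x ≤ m} = Set.Iic (fun _ => m) := rfl
    rw [this]
    exact Set.finite_Iic _
  refine Set.Finite.of_injOn (f := fun a : Fin k × Fin n →₀ ℕ => (a : Fin k × Fin n → ℕ)) ?_ ?_ h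
  · intro a ha x
    have h1 : Finsupp.weight (wt n k) a = m := ha
    rw [Finsupp.weight_apply, Finsupp.sum_fintype _ _ (by simp)] at h1
    have h2 : a x • wt n k x ≤ ∑ i, a i • wt n k i :=
      Finset.single_le_sum (f := fun i => a i • wt n k i) (fun _ _ => Nat.zero_le _) (Finset.mem_univ x)
    rw [h1, smul_eq_mul] at h2
    have h3 : 1 ≤ wt n k x := by unfold wt; omega
    exact le_trans (Nat.le_mul_of_pos_right _ h3) h2
  · intro a _ b _ hab
    exact DFunLike.coe_injective hab

/-- LEAD: the rank of the good part is at least the number of packed exponents. -/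
theorem lead (n k m p : ℕ) : Nat.card {a : Fin k × Fin n →₀ ℕ // Finsupp.weight (wt n k) a = m ∧ Packed p a} ≤
    Module.finrank ℂ (good n k m p) := by
  classical
  set S := {a : Fin k × Fin n →₀ ℕ // Finsupp.weight (wt n k) a = m ∧ Packed p a} with hS
  choose g hg hl using fun a : S => exists_good a.1 a.2.1 a.2.2
  have hfd : Module.Finite ℂ (weightedHomogeneousSubmodule ℂ (wt n k) m) := by
    rw [MvPolynomial.weightedHomogeneousSubmodule_eq_finsupp_supported]
    have := (finite_weight n k m).to_subtype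
    exact Module.Finite.equiv (AddMonoidAlgebra.supportedEquivFinsupp (R := ℂ) (S := ℂ)
      {a : Fin k × Fin n →₀ ℕ | Finsupp.weight (wt n k) a = m}).symm
  have hfd' : Module.Finite ℂ (good n k m p) :=
    Submodule.finiteDimensional_of_le (S₂ := weightedHomogeneousSubmodule ℂ (wt n k) m) inf_le_right
  have hli : LinearIndependent ℂ (fun a : S => (⟨g a, hg a⟩ : good n k m p)) := by
    have h0 : LinearIndependent ℂ g := by
      rw [linearIndependent_iff']
      intro s c hc
      by_contra hne
      push Not at hne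
      obtain ⟨i, hi, hci⟩ := hne
      obtain ⟨j, hj, hmax⟩ := Finset.exists_max_image (s.filter fun a => c a ≠ 0) (fun a => ph a.1)
        ⟨i, Finset.mem_filter.2 ⟨hi, hci⟩⟩
      rw [Finset.mem_filter] at hj
      have h1 := congrArg (coeff j.1) hc
      rw [coeff_sum, coeff_zero, Finset.sum_eq_single j] at h1
      · rw [coeff_smul, (hl j).1, smul_eq_mul, mul_one] at h1
        exact hj.2 h1
      · intro b hb hbj
        rw [coeff_smul, smul_eq_mul]
        by_cases hcb : c b = 0
        · rw [hcb, zero_mul]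
        · by_cases hz : coeff j.1 (g b) = 0
          · rw [hz, mul_zero]
          · exfalso
            have h2 := hmax b (Finset.mem_filter.2 ⟨hb, hcb⟩)
            rcases (hl b).2 _ hz with h3 | h3
            · exact hbj (Subtype.ext h3.symm)
            · omega
      · intro h
        exact absurd hj.1 h
    exact LinearIndependent.of_comp (good n k m p).subtype h0
  have hfin : Finite S := by
    have := hli.finite
    exact this
  have := Fintype.ofFinite S
  rw [Nat.card_eq_fintype_card]
  exact hli.fintype_card_le_finrank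

end Pool.Agent.H37.KA
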