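import Mathlib

set_option autoImplicit false

open Real

namespace Pool.Agent.H37.KA

/-- `K = ⌈10 + 2 log n⌉` -/
noncomputable def KK (n : ℕ) : ℕ := ⌈10 + 2 * log n⌉₊

lemma le_KK (n : ℕ) : 10 + 2 * log (n : ℝ) ≤ KK n := Nat.le_ceil _

lemma KK_le (n : ℕ) (hn : 2 ≤ n) : (KK n : ℝ) ≤ 11 * (1 + log n) := by
  have hn' : (1 : ℝ) ≤ n := by exact_mod_cast (by omega : 1 ≤ n)
  have h0 : 0 ≤ log (n : ℝ) := log_nonneg hn'
  have h1 := Nat.ceil_lt_add_one (a := 10 + 2 * log (n : ℝ)) (by positivity)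
  unfold KK
  linarith

lemma one_add_log_le (n : ℕ) (hn : 2 ≤ n) : 1 + log (n : ℝ) ≤ n := by
  have hn' : (0 : ℝ) < n := by exact_mod_cast (by omega : 0 < n)
  have := log_le_sub_one_of_pos hn'
  linarith

lemma log_ge (n : ℕ) (hn : 2 ≤ n) : 69 / 100 ≤ log (n : ℝ) := by
  have h1 : log 2 ≤ log (n : ℝ) := log_le_log (by norm_num) (by exact_mod_cast hn)
  have := log_two_gt_d9
  linarith

lemma ten_le_KK (n : ℕ) (hn : 2 ≤ n) : 10 ≤ KK n := by
  have h1 := le_KK n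
  have h2 := log_ge n hn
  have : (10 : ℝ) ≤ KK n := by linarith
  exact_mod_cast this

/-- crude bound `k ≤ 11 n²` for `k = n K` -/
lemma k_le (n : ℕ) (hn : 2 ≤ n) : ((n * KK n : ℕ) : ℝ) ≤ 11 * n ^ 2 := by
  have hn' : (0 : ℝ) < n := by exact_mod_cast (by omega : 0 < n)
  have h1 := KK_le n hn
  have h2 := one_add_log_le n hn
  push_cast
  nlinarith

/-- `e √M ≤ (3n)^n` -/
theorem sqrt_M_le (n k : ℕ) (hn : 2 ≤ n) (hk : k = n * KK n) :
    exp 1 * √((k * n - 1 : ℕ) : ℝ) ≤ (3 * n) ^ n := by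
  have hn' : (2 : ℝ) ≤ n := by exact_mod_cast hn
  have hn0 : (0 : ℝ) < n := by linarith
  have hkl : (k : ℝ) ≤ 11 * n ^ 2 := by rw [hk]; exact k_le n hn
  have h2 : √((k * n - 1 : ℕ) : ℝ) ≤ 331663 / 100000 * n * √n := by
    have h3 : ((k * n - 1 : ℕ) : ℝ) ≤ (331663 / 100000 * n * √n) ^ 2 := by
      have h4 : ((k * n - 1 : ℕ) : ℝ) ≤ k * n := by
        have : k * n - 1 ≤ k * n := Nat.sub_le _ _
        exact_mod_cast this
      refine h4.trans ?_
      rw [mul_pow, mul_pow, sq_sqrt hn0.le]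
      nlinarith [mul_le_mul_of_nonneg_right hkl hn0.le, pow_pos hn0 3]
    calc √((k * n - 1 : ℕ) : ℝ) ≤ √((331663 / 100000 * n * √n) ^ 2) := sqrt_le_sqrt h3
      _ = _ := sqrt_sq (by positivity)
  have h5 : √(n : ℝ) ≤ n * (70711 / 100000) := by
    have h6 : (n : ℝ) ≤ (n * (70711 / 100000)) ^ 2 := by nlinarith
    calc √(n : ℝ) ≤ √((n * (70711 / 100000)) ^ 2) := sqrt_le_sqrt h6
      _ = _ := sqrt_sq (by positivity)
  have h7 := exp_one_lt_d9
  calc exp 1 * √((k * n - 1 : ℕ) : ℝ) ≤ 2.7182818286 * (331663 / 100000 * n * (n * (70711 / 100000))) := by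
        have : √((k * n - 1 : ℕ) : ℝ) ≤ 331663 / 100000 * n * (n * (70711 / 100000)) :=
          h2.trans (by gcongr)
        have h8 := exp_pos 1
        have h9 : (0 : ℝ) ≤ √((k * n - 1 : ℕ) : ℝ) := sqrt_nonneg _
        nlinarith
    _ ≤ (3 * n) ^ 2 := by nlinarith
    _ ≤ (3 * n) ^ n := pow_le_pow_right₀ (by linarith) hn

/-- `q M / 2 = 10 n (1 + log n)` is large enough. -/
theorem numH (n k : ℕ) (hn : 2 ≤ n) (hk : k = n * KK n) :
    exp 1 * √((k * n - 1 : ℕ) : ℝ) * (2 * √k) ^ n * exp (-(10 * n * (1 + log n))) <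
      (1 / (90 * k * n : ℝ)) ^ n := by
  have hn' : (2 : ℝ) ≤ n := by exact_mod_cast hn
  have hn0 : (0 : ℝ) < n := by linarith
  have hk1 : 1 ≤ k := by
    have := ten_le_KK n hn
    rw [hk]
    nlinarith
  have hk0 : (0 : ℝ) < k := by exact_mod_cast hk1
  have hkl : (k : ℝ) ≤ 11 * n ^ 2 := by rw [hk]; exact k_le n hn
  have e1 : exp (-(10 * n * (1 + log n))) = ((exp 10 * (n : ℝ) ^ 10) ^ n)⁻¹ := by
    rw [exp_neg]
    congr 1
    have : (n : ℝ) ^ 10 = exp (10 * log n) := by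
      rw [mul_comm, exp_mul, exp_log hn0]
      norm_cast
    rw [this, ← exp_add, ← exp_nat_mul]
    congr 1
    ring
  rw [e1, ← div_eq_mul_inv, div_lt_iff₀ (by positivity), ← mul_pow]
  have h1 := sqrt_M_le n k hn hk
  have h10 : 2 * √(k : ℝ) ≤ 8 * n := by
    have : √(k : ℝ) ≤ 4 * n := by
      have h6 : (k : ℝ) ≤ (4 * n) ^ 2 := by nlinarith
      calc √(k : ℝ) ≤ √((4 * n) ^ 2) := sqrt_le_sqrt h6
        _ = _ := sqrt_sq (by positivity)
    linarith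
  calc exp 1 * √((k * n - 1 : ℕ) : ℝ) * (2 * √k) ^ n ≤ (3 * n) ^ n * (8 * n) ^ n := by gcongr
    _ = (24 * n ^ 2) ^ n := by rw [← mul_pow]; congr 1; ring
    _ < (1 / (90 * k * n) * (exp 10 * (n : ℝ) ^ 10)) ^ n := by
      apply pow_lt_pow_left₀ _ (by positivity) (by omega)
      rw [div_mul_eq_mul_div, one_mul, lt_div_iff₀ (by positivity)]
      have h11 : (2.7 : ℝ) ^ 10 ≤ exp 10 := by
        have : exp 10 = exp 1 ^ 10 := by rw [← exp_nat_mul]; norm_num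
        rw [this]
        have := exp_one_gt_d9
        gcongr
        linarith
      have h12 : (20000 : ℝ) ≤ exp 10 := le_trans (by norm_num) h11
      have h13 : 24 * (n : ℝ) ^ 2 * (90 * k * n) ≤ 23760 * n ^ 5 := by
        have : (0 : ℝ) ≤ n ^ 3 := by positivity
        nlinarith [mul_le_mul_of_nonneg_right hkl this]
      have h14 : (n : ℝ) ^ 10 = n ^ 5 * n ^ 5 := by ring
      have h15 : (32 : ℝ) ≤ n ^ 5 := by
        calc (32 : ℝ) = 2 ^ 5 := by norm_num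
          _ ≤ n ^ 5 := by gcongr
      have h16 : (0 : ℝ) < n ^ 5 := by positivity
      calc 24 * (n : ℝ) ^ 2 * (90 * k * n) ≤ 23760 * n ^ 5 := h13
        _ < 20000 * (n ^ 5 * n ^ 5) := by nlinarith
        _ ≤ exp 10 * n ^ 10 := by rw [h14]; gcongr

/-- the choice of `β` and the bound for `d` -/
theorem numD (n k d : ℕ) (hn : 2 ≤ n) (hk : k = n * KK n)
    (hd : 70000 * (n : ℝ) ^ 2 * (1 + log n) ^ 2 ≤ d) :
    ∃ β : ℕ, 2 * (n + 2 + 60 * k * n + β) ≤ d ∧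
      (20 * n * (1 + log n) / (k * n - 1 : ℕ)) * (5 * k - 1) * (30 * k * n) < (β : ℝ) := by
  have hn' : (2 : ℝ) ≤ n := by exact_mod_cast hn
  have hn0 : (0 : ℝ) < n := by linarith
  have hL := log_ge n hn
  set L : ℝ := 1 + log n with hLd
  have hL1 : 169 / 100 ≤ L := by linarith
  have hL0 : 0 < L := by linarith
  have hK := KK_le n hn
  rw [← hLd] at hK
  have hK10 := ten_le_KK n hn
  have hk1 : 20 ≤ k := by rw [hk]; nlinarith
  have hk0 : (0 : ℝ) < k := by exact_mod_cast (by omega : 0 < k)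
  have hkr : (k : ℝ) ≤ 11 * (n * L) := by
    rw [hk]
    push_cast
    nlinarith
  have hkn : 40 ≤ k * n := by nlinarith
  have hM : ((k * n - 1 : ℕ) : ℝ) = k * n - 1 := by
    rw [Nat.cast_sub (by omega)]
    push_cast
    ring
  have hknr : (40 : ℝ) ≤ k * n := by exact_mod_cast hkn
  refine ⟨⌈3100 * (n * k * L)⌉₊, ?_, ?_⟩
  · have h1 := Nat.ceil_lt_add_one (a := 3100 * ((n : ℝ) * k * L)) (by positivity)
    have h2 : (2 * (n + 2 + 60 * k * n + ⌈3100 * ((n : ℝ) * k * L)⌉₊) : ℝ) ≤ d := by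
      refine le_trans ?_ hd
      have h3 : (n : ℝ) * k * L ≤ 11 * (n ^ 2 * L ^ 2) := by
        have : 0 ≤ (n : ℝ) * L := by positivity
        nlinarith [mul_le_mul_of_nonneg_left hkr this]
      have h4 : (k : ℝ) * n ≤ 11 * (n ^ 2 * L) := by nlinarith [mul_le_mul_of_nonneg_right hkr hn0.le]
      have h5 : (n : ℝ) ^ 2 * L ≤ n ^ 2 * L ^ 2 * (100 / 169) := by
        have : 0 ≤ (n : ℝ) ^ 2 * L := by positivity
        nlinarith
      have h6 : (n : ℝ) + 3 ≤ n ^ 2 * L ^ 2 := by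
        have h7 : (n : ℝ) + 3 ≤ 5 / 4 * n ^ 2 := by nlinarith
        have h8 : (5 / 4 : ℝ) ≤ L ^ 2 := by nlinarith
        nlinarith [sq_nonneg (n : ℝ)]
      have h9 : 70000 * (n : ℝ) ^ 2 * L ^ 2 = 70000 * (n ^ 2 * L ^ 2) := by ring
      rw [h9]
      nlinarith
    exact_mod_cast h2
  · refine lt_of_lt_of_le ?_ (Nat.le_ceil _)
    rw [hM]
    have h0 : (0 : ℝ) < k * n - 1 := by linarith
    rw [div_mul_eq_mul_div, div_mul_eq_mul_div, div_lt_iff₀ h0]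
    have h1 : (0 : ℝ) < n * k * L := by positivity
    have h2 : 20 * n * L * (5 * k - 1) * (30 * k * n) ≤ 3000 * (n * k * L) * (k * n) := by
      have : 0 ≤ 600 * (n * k * L) * n := by positivity
      nlinarith
    refine lt_of_le_of_lt h2 ?_
    have h3 : 3000 * (k * n : ℝ) < 3100 * (k * n - 1) := by linarith
    calc 3000 * (n * k * L) * (k * n : ℝ) = (n * k * L) * (3000 * (k * n)) := by ring
      _ < (n * k * L) * (3100 * (k * n - 1)) := by gcongr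
      _ = _ := by ring

/-- from dimension `2n - 1` to dimension `n` -/
theorem numR (n d : ℕ) (hn : 2 ≤ n) (hd : 1000000 * (n : ℝ) ^ 2 * (1 + log n) ^ 2 ≤ d) :
    70000 * ((2 * n - 1 : ℕ) : ℝ) ^ 2 * (1 + log (2 * n - 1 : ℕ)) ^ 2 ≤ d := by
  have hn' : (2 : ℝ) ≤ n := by exact_mod_cast hn
  have hn0 : (0 : ℝ) < n := by linarith
  have hL := log_ge n hn
  set L : ℝ := 1 + log n with hLd
  have hL1 : 169 / 100 ≤ L := by linarith
  have h1 : ((2 * n - 1 : ℕ) : ℝ) ≤ 2 * n := by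
    have : 2 * n - 1 ≤ 2 * n := Nat.sub_le _ _
    exact_mod_cast this
  have h1' : (1 : ℝ) ≤ ((2 * n - 1 : ℕ) : ℝ) := by
    have : 1 ≤ 2 * n - 1 := by omega
    exact_mod_cast this
  have h2 : log ((2 * n - 1 : ℕ) : ℝ) ≤ log 2 + log n := by
    rw [← log_mul (by norm_num) hn0.ne']
    exact log_le_log (by linarith) h1
  have h3 := log_two_lt_d9
  have h4 : 1 + log ((2 * n - 1 : ℕ) : ℝ) ≤ 142 / 100 * L := by linarith
  have h4' : 0 ≤ 1 + log ((2 * n - 1 : ℕ) : ℝ) := by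
    have := log_nonneg h1'
    linarith
  refine le_trans ?_ hd
  have h5 : ((2 * n - 1 : ℕ) : ℝ) ^ 2 ≤ (2 * n) ^ 2 := by gcongr
  have h6 : (1 + log ((2 * n - 1 : ℕ) : ℝ)) ^ 2 ≤ (142 / 100 * L) ^ 2 := by gcongr
  calc 70000 * ((2 * n - 1 : ℕ) : ℝ) ^ 2 * (1 + log (2 * n - 1 : ℕ)) ^ 2
      ≤ 70000 * (2 * n) ^ 2 * (142 / 100 * L) ^ 2 := by gcongr
    _ = 564592 * (n ^ 2 * L ^ 2) := by ring
    _ ≤ 1000000 * n ^ 2 * L ^ 2 := by
      have : (0 : ℝ) ≤ n ^ 2 * L ^ 2 := by positivity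
      nlinarith

end Pool.Agent.H37.KA
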