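import Pool.Agent.H37.KA.Vol
import Pool.Agent.H37.KA.Num
import Pool.Agent.H54.KB.Count
import Pool.Agent.H37.KA.Lead

set_option autoImplicit false

open Filter Topology Real

namespace Pool.Agent.H37.KA

open Pool.Agent.H47.KB (wt Jets cnt core GGL Hyp)

/-- The published facts used. -/
structure Published where
  pieces : ∀ n k d : ℕ, 2 ≤ n → 1 ≤ k → n + k ≤ d → Pieces n k d
  /-- Riedl-Yang (J. Algebraic Geom. 31, 2022): Green-Griffiths-Lang for general hypersurfaces of degree `d`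
  and dimension `2n - 1` implies that general hypersurfaces of degree `d` and dimension `n` are hyperbolic. -/
  riedl_yang : ∀ n d : ℕ, 2 ≤ n → GGL (2 * n - 1) d → Hyp n d

/-- the bound for the bad fraction -/
noncomputable def PP (n k : ℕ) : ℝ :=
  2 ^ (k + 1) * (exp 1 * √((k * n - 1 : ℕ) : ℝ)) * exp (k / 2) / 16 ^ (k + 1 - n)

/-- COUNT -/
theorem count (n k : ℕ) (hn : 2 ≤ n) (hk : n ≤ k) : ∀ᶠ l : ℕ in atTop,
    (Nat.card {a : Fin k × Fin n →₀ ℕ // Finsupp.weight (wt n k) a = 30 * k * n * l ∧ ¬ Packed l a} : ℝ) ≤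
      PP n k * vol n k (30 * k * n * l) := by
  have h1 : 1 ≤ k := by omega
  have h2 : 1 ≤ k * n := Nat.mul_pos h1 (by omega)
  filter_upwards [eventually_ge_atTop (2 * (k * n - 1) * k)] with l hl
  exact H54.KB.count_le hn h1 (M := k * n - 1) (by omega) hl

/-- R(m) ≥ V(m) -/
theorem vol_le (n k m : ℕ) (hn : 1 ≤ n) (hk : 1 ≤ k) :
    vol n k m ≤ (Nat.card {a : Fin k × Fin n →₀ ℕ // Finsupp.weight (wt n k) a = m} : ℝ) := by
  have h1 : 1 ≤ k * n := Nat.mul_pos hk hn
  have h := H97KB.jetCount_ge n k (k * n - 1) hn hk (by omega) m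
  unfold vol
  refine h.trans (le_of_eq ?_)
  unfold H97KB.jetCount
  congr 1
  refine Nat.card_congr (Equiv.subtypeEquivRight fun a => ?_)
  exact ⟨fun h => h.1, fun h => ⟨h, Nat.zero_le _⟩⟩

theorem finrank_whole (n k m : ℕ) : Module.finrank ℂ (MvPolynomial.weightedHomogeneousSubmodule ℂ (wt n k) m) =
    Nat.card {a : Fin k × Fin n →₀ ℕ // Finsupp.weight (wt n k) a = m} := by
  have h1 : Module.finrank ℂ (MvPolynomial.weightedHomogeneousSubmodule ℂ (wt n k) m) =
      Module.finrank ℂ ({a : Fin k × Fin n →₀ ℕ | Finsupp.weight (wt n k) a = m} →₀ ℂ) := by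
    rw [MvPolynomial.weightedHomogeneousSubmodule_eq_finsupp_supported]
    exact LinearEquiv.finrank_eq (AddMonoidAlgebra.supportedEquivFinsupp
      {a : Fin k × Fin n →₀ ℕ | Finsupp.weight (wt n k) a = m})
  rw [h1, Module.finrank, rank_finsupp_self']
  rfl

theorem PP_le (n k : ℕ) (hn : 2 ≤ n) (hk : k = n * KK n) : PP n k ≤ 1 / 4 * (1 / (90 * k * n : ℝ)) ^ n := by
  have hn' : (2 : ℝ) ≤ n := by exact_mod_cast hn
  have hn0 : (0 : ℝ) < n := by linarith
  have hL := log_ge n hn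
  have hK10 := ten_le_KK n hn
  have hk1 : 1 ≤ k := by rw [hk]; nlinarith
  have hk0 : (0 : ℝ) < k := by exact_mod_cast hk1
  have hM := sqrt_M_le n k hn hk
  have hKl := KK_le n hn
  have hKg := le_KK n
  set K := KK n with hK
  have hkl : (k : ℝ) ≤ 11 * (n * (1 + log n)) := by
    rw [hk]
    push_cast
    nlinarith
  have e1 : k + 1 - n = (K - 1) * n + 1 := by
    obtain ⟨j, hj⟩ : ∃ j, K = j + 1 := ⟨K - 1, by omega⟩
    rw [hk, hj, mul_add, mul_one, Nat.add_sub_cancel, mul_comm n j]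
    omega
  -- the growth of `(8/√e)^K`
  have hg : 4320 * (k * n ^ 2 : ℝ) ≤ exp (K * (3 * log 2 - 1 / 2)) := by
    have h1 : exp (157 / 10 + 314 / 100 * log n) ≤ exp (K * (3 * log 2 - 1 / 2)) := by
      apply exp_le_exp.2
      have h2 := log_two_gt_d9
      have h3 : (157 / 100 : ℝ) ≤ 3 * log 2 - 1 / 2 := by linarith
      calc 157 / 10 + 314 / 100 * log (n : ℝ) = (10 + 2 * log n) * (157 / 100) := by ring
        _ ≤ K * (3 * log 2 - 1 / 2) := by gcongr
    refine le_trans ?_ h1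
    have h3 : exp (3 * log (n : ℝ)) = (n : ℝ) ^ 3 := by
      rw [mul_comm, exp_mul, exp_log hn0]
      norm_cast
    have h4 : 157 / 10 + 314 / 100 * log (n : ℝ) = 157 / 10 + 3 * log n + 14 / 100 * log n := by ring
    rw [h4, exp_add, exp_add, h3]
    have h5 : (400000 : ℝ) * (100 / 14) ≤ exp (157 / 10) := by
      calc (400000 : ℝ) * (100 / 14) ≤ (27 / 10) ^ 15 := by norm_num
        _ ≤ exp 1 ^ 15 := by
          have := exp_one_gt_d9
          gcongr
          linarith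
        _ = exp 15 := by rw [← exp_nat_mul]; norm_num
        _ ≤ exp (157 / 10) := exp_le_exp.2 (by norm_num)
    have h6 : 14 / 100 * (1 + log (n : ℝ)) ≤ exp (14 / 100 * log n) := by
      have := add_one_le_exp (14 / 100 * log (n : ℝ))
      linarith
    have h7 : (0 : ℝ) < n ^ 3 * (1 + log n) := by positivity
    calc 4320 * (k * n ^ 2 : ℝ) ≤ 4320 * (11 * (n * (1 + log n)) * n ^ 2) := by gcongr
      _ = 47520 * (n ^ 3 * (1 + log n)) := by ring
      _ ≤ 400000 * (n ^ 3 * (1 + log n)) := by nlinarith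
      _ = (400000 * (100 / 14)) * n ^ 3 * (14 / 100 * (1 + log n)) := by ring
      _ ≤ exp (157 / 10) * n ^ 3 * exp (14 / 100 * log n) := by gcongr
  have e2 : PP n k = 1 / 8 * (exp 1 * √((k * n - 1 : ℕ) : ℝ)) *
      (16 / exp (K * (3 * log 2 - 1 / 2))) ^ n := by
    have h16 : exp (4 * log 2) = (16 : ℝ) := by
      rw [mul_comm, exp_mul, exp_log (by norm_num)]
      norm_num
    have h2 : exp (log 2) = (2 : ℝ) := exp_log (by norm_num)
    have hKr : ((K - 1 : ℕ) : ℝ) = K - 1 := by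
      rw [Nat.cast_sub (by omega)]
      simp
    have hkr : (k : ℝ) = n * K := by
      rw [hk]
      push_cast
      ring
    have h3 : (2 : ℝ) ^ (k + 1) * exp (k / 2) / 16 ^ (k + 1 - n) =
        1 / 8 * (16 / exp (K * (3 * log 2 - 1 / 2))) ^ n := by
      rw [e1]
      have a1 : (2 : ℝ) ^ (k + 1) = 2 * exp (k * log 2) := by
        rw [pow_succ, ← h2, ← exp_nat_mul, h2]
        ring
      have a2 : (16 : ℝ) ^ ((K - 1) * n + 1) = 16 * exp ((K - 1) * n * (4 * log 2)) := by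
        rw [pow_succ, ← h16, ← exp_nat_mul, h16]
        push_cast
        rw [hKr]
        ring
      have a3 : (16 / exp (K * (3 * log 2 - 1 / 2)) : ℝ) ^ n = exp (n * (4 * log 2 - K * (3 * log 2 - 1 / 2))) := by
        have a5 : 16 / exp (K * (3 * log 2 - 1 / 2)) = exp (4 * log 2 - K * (3 * log 2 - 1 / 2)) := by
          rw [exp_sub (4 * log 2), h16]
        rw [a5, ← exp_nat_mul]
      rw [a1, a2, a3]
      have a4 : exp ((n : ℝ) * (4 * log 2 - K * (3 * log 2 - 1 / 2))) =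
          exp (k * log 2) * exp (k / 2) / exp ((K - 1) * n * (4 * log 2)) := by
        rw [← exp_add, ← exp_sub]
        congr 1
        rw [hkr]
        ring
      rw [a4]
      field_simp
      norm_num
    unfold PP
    calc 2 ^ (k + 1) * (exp 1 * √((k * n - 1 : ℕ) : ℝ)) * exp (k / 2) / 16 ^ (k + 1 - n)
        = (exp 1 * √((k * n - 1 : ℕ) : ℝ)) * (2 ^ (k + 1) * exp (k / 2) / 16 ^ (k + 1 - n)) := by ring
      _ = _ := by rw [h3]; ring
  rw [e2]
  have h5 : 3 * n * (16 / exp (K * (3 * log 2 - 1 / 2))) ≤ 1 / (90 * k * n) := by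
    rw [← mul_div_assoc, div_le_div_iff₀ (exp_pos _) (by positivity)]
    calc 3 * n * 16 * (90 * k * n) = 4320 * (k * n ^ 2 : ℝ) := by ring
      _ ≤ _ := hg
      _ = _ := by ring
  calc 1 / 8 * (exp 1 * √((k * n - 1 : ℕ) : ℝ)) * (16 / exp (K * (3 * log 2 - 1 / 2))) ^ n
      ≤ 1 / 8 * (3 * n) ^ n * (16 / exp (K * (3 * log 2 - 1 / 2))) ^ n := by gcongr
    _ = 1 / 8 * (3 * n * (16 / exp (K * (3 * log 2 - 1 / 2)))) ^ n := by
      rw [mul_pow (3 * (n : ℝ)), mul_assoc]
    _ ≤ 1 / 4 * (1 / (90 * k * n : ℝ)) ^ n := by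
      gcongr
      norm_num

lemma card_split {α : Type*} (S : Set α) (Q : α → Prop) :
    Nat.card {a // a ∈ S} ≤ Nat.card {a // a ∈ S ∧ ¬ Q a} + Nat.card {a // a ∈ S ∧ Q a} := by
  have h1 : S = {a | a ∈ S ∧ ¬ Q a} ∪ {a | a ∈ S ∧ Q a} := by
    ext a
    by_cases h : Q a <;> simp [h]
  have h2 := Set.ncard_union_le {a | a ∈ S ∧ ¬ Q a} {a | a ∈ S ∧ Q a}
  rw [← h1] at h2
  exact h2

/-- Green-Griffiths-Lang for general hypersurfaces of degree `d ≥ 70000 n² (1 + log n)²`. -/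
theorem ggl (T : Published) (n d : ℕ) (hn : 2 ≤ n) (hd : 70000 * (n : ℝ) ^ 2 * (1 + log n) ^ 2 ≤ d) :
    GGL n d := by
  have hn' : (2 : ℝ) ≤ n := by exact_mod_cast hn
  have hn0 : (0 : ℝ) < n := by linarith
  have hK10 := ten_le_KK n hn
  obtain ⟨k, hk⟩ : ∃ k, k = n * KK n := ⟨_, rfl⟩
  have hk1 : 1 ≤ k := by rw [hk]; nlinarith
  have hk0 : (0 : ℝ) < k := by exact_mod_cast hk1
  obtain ⟨β, hβ, hq⟩ := numD n k d hn hk hd
  have hkd : n + k ≤ d := by nlinarith
  have hnk : n ≤ k := by rw [hk]; nlinarith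
  let J := T.pieces n k d hn hk1 hkd
  have hPP0 : 0 ≤ PP n k := by unfold PP; positivity
  have hkn : 2 ≤ k * n := by nlinarith
  have hM0 : (0 : ℝ) < ((k * n - 1 : ℕ) : ℝ) := by
    have : 0 < k * n - 1 := by omega
    exact_mod_cast this
  have hlog := log_ge n hn
  -- the two parts
  have key : ∀ m p : ℕ, (Nat.card {a : Fin k × Fin n →₀ ℕ // Finsupp.weight (wt n k) a = m} : ℝ) ≤
      Nat.card {a : Fin k × Fin n →₀ ℕ // Finsupp.weight (wt n k) a = m ∧ ¬ Packed p a} +
      Module.finrank ℂ (good n k m p) := by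
    intro m p
    have h1 := lead n k m p
    have h2 := card_split {a : Fin k × Fin n →₀ ℕ | Finsupp.weight (wt n k) a = m} (Packed p)
    have h3 := h2.trans (Nat.add_le_add_left h1 _)
    exact_mod_cast h3
  refine ggl_of_counts J hn hk1 β hβ (PP n k) hPP0 (PP_le n k hn hk) ?_ ?_
    (20 * n * (1 + log n) / (k * n - 1 : ℕ)) (by positivity) hq ?_
  · filter_upwards [count n k hn hnk] with l hl
    have h1 := key (30 * k * n * l) l
    have h2 := J.rank_add (30 * k * n * l) l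
    rw [finrank_whole] at h2
    have h3 : (Module.finrank ℂ (good n k (30 * k * n * l) l) : ℝ) + J.rk (30 * k * n * l) l =
        Nat.card {a : Fin k × Fin n →₀ ℕ // Finsupp.weight (wt n k) a = 30 * k * n * l} := by
      exact_mod_cast h2
    linarith
  · filter_upwards [count n k hn hnk] with l hl
    have h1 := key (30 * k * n * l) l
    have h2 := vol_le n k (30 * k * n * l) (by omega) hk1
    linarith
  · have h1 := numH n k hn hk
    have h2 : 20 * (n : ℝ) * (1 + log n) / ((k * n - 1 : ℕ) : ℝ) * ((k * n - 1 : ℕ) : ℝ) / 2 =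
        10 * n * (1 + log n) := by
      rw [div_mul_cancel₀ _ hM0.ne']
      ring
    rw [h2]
    exact h1

/-- Kobayashi hyperbolicity of general hypersurfaces of degree `d ≥ 10⁶ n² (1 + log n)²`. -/
theorem hyperbolic (T : Published) (n d : ℕ) (hn : 2 ≤ n)
    (hd : 1000000 * (n : ℝ) ^ 2 * (1 + log n) ^ 2 ≤ d) : Hyp n d :=
  T.riedl_yang n d hn (ggl T (2 * n - 1) d (by omega) (numR n d hn hd))

end Pool.Agent.H37.KA
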