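import Pool.Agent.H37.KA.Hyp

set_option autoImplicit false

open Filter Topology

namespace Pool.Agent.H37.KA

open Pool.Agent.H47.KB (wt Jets)

/-- `m^M / (M! (k!)^n)`, `M = kn - 1`: the main term of the number of monomials of weight `m`. -/
noncomputable def vol (n k m : ℕ) : ℝ :=
  (m : ℝ) ^ (k * n - 1) / ((k * n - 1).factorial * (k.factorial : ℝ) ^ n)

lemma vol_nonneg (n k m : ℕ) : 0 ≤ vol n k m := by
  unfold vol
  positivity

lemma pow_le_two (n : ℕ) (x : ℝ) (h0 : 0 ≤ x) (h : x * n ≤ 1 / 2) : (1 + x) ^ n ≤ 2 := by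
  calc (1 + x) ^ n ≤ (Real.exp x) ^ n := by
        have := Real.add_one_le_exp x
        gcongr
        linarith
    _ = Real.exp (x * n) := by rw [← Real.exp_nat_mul]; congr 1; ring
    _ ≤ Real.exp (1 / 2) := Real.exp_le_exp.2 h
    _ ≤ 2 := by
        have h7 : Real.exp (1 / 2 : ℝ) ^ 2 ≤ 4 := by
          rw [← Real.exp_nat_mul]
          norm_num
          have := Real.exp_one_lt_d9
          linarith
        nlinarith [Real.exp_pos (1 / 2 : ℝ)]

lemma aux_d {d D l c : ℕ} (h : d ≤ 2 * D) (hl : 2 * c + 6 ≤ l) : d ≤ l * D := by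
  have h2 : 2 * D ≤ l * D := Nat.mul_le_mul_right D (by omega)
  omega

lemma aux_real {d D l : ℝ} (hd : 0 < d) (h : d ≤ 2 * D) (hl : 6 ≤ l) : d * l / 3 ≤ l * D - d := by
  nlinarith

lemma aux_nat {n k β D l c₀ : ℕ} (h1 : 1 ≤ D) (hl : c₀ ≤ l) :
    β * l + 2 * (30 * k * n * l) + c₀ ≤ (n + 2 + 60 * k * n + β + D) * l := by
  have h2 : c₀ ≤ D * l := hl.trans (Nat.le_mul_of_pos_left l h1)
  calc β * l + 2 * (30 * k * n * l) + c₀ ≤ β * l + 2 * (30 * k * n * l) + D * l := by omega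
    _ ≤ β * l + 2 * (30 * k * n * l) + D * l + (n + 2) * l := Nat.le_add_right _ _
    _ = (n + 2 + 60 * k * n + β + D) * l := by ring

lemma aux_kn {d k n l : ℝ} (hd : 1 ≤ d) (hk : 1 ≤ k) (hn : 1 ≤ n) (hl : 0 ≤ l) :
    l ≤ d * (30 * k * n * l) := by
  have h1 : 1 ≤ k * n := one_le_mul_of_one_le_of_one_le hk hn
  have h2 : 1 ≤ d * (k * n) := one_le_mul_of_one_le_of_one_le hd h1
  have h3 : 1 * l ≤ d * (k * n) * l := mul_le_mul_of_nonneg_right h2 hl
  have h4 : 0 ≤ d * (k * n) * l := by linarith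
  calc l ≤ d * (k * n) * l := by linarith
    _ ≤ 30 * (d * (k * n) * l) := by linarith
    _ = _ := by ring

lemma aux_two {d k n l : ℝ} (hd : 0 ≤ d) (hk : 1 ≤ k) (hn : 0 ≤ n) (hl : 0 ≤ l) :
    2 * n * l * d ≤ d * (30 * k * n * l) := by
  have h1 : 0 ≤ d * (n * l) := by positivity
  have h2 : 1 * (d * (n * l)) ≤ k * (d * (n * l)) := mul_le_mul_of_nonneg_right hk h1
  calc 2 * n * l * d = 2 * (1 * (d * (n * l))) := by ring
    _ ≤ 2 * (k * (d * (n * l))) := by linarith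
    _ ≤ 30 * (k * (d * (n * l))) := by
        have : 0 ≤ k * (d * (n * l)) := by linarith
        linarith
    _ = _ := by ring

lemma aux_s {k n : ℝ} (hk : 1 ≤ k) (hn : 1 ≤ n) : 1 ≤ 90 * k * n := by
  have h1 : 1 ≤ k * n := one_le_mul_of_one_le_of_one_le hk hn
  nlinarith

lemma aux_fin {P s : ℝ} (hP0 : 0 ≤ P) (hP : P ≤ 1 / 4 * s) (hs1 : s ≤ 1) :
    1 / 2 * s ≤ (1 - P) * s - P := by
  have h1 : P * s ≤ P * 1 := mul_le_mul_of_nonneg_left hs1 hP0
  linarith

/-- The comparison of the good and the bad part. -/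
theorem compare {n k d : ℕ} (T : Pieces n k d) (hn : 2 ≤ n) (hk : 1 ≤ k) (β : ℕ)
    (hd : 2 * (n + 2 + 60 * k * n + β) ≤ d) (P : ℝ) (hP0 : 0 ≤ P)
    (hP : P ≤ 1 / 4 * (1 / (90 * k * n : ℝ)) ^ n)
    (bad : ∀ᶠ l : ℕ in atTop, (T.rk (30 * k * n * l) l : ℝ) ≤ P * vol n k (30 * k * n * l))
    (good : ∀ᶠ l : ℕ in atTop, (1 - P) * vol n k (30 * k * n * l) ≤
      (Module.finrank ℂ (good n k (30 * k * n * l) l) : ℝ)) :
    ∀ᶠ l : ℕ in atTop, 1 / 2 * (1 / (90 * k * n : ℝ)) ^ n * (d ^ (n + 1) / n.factorial) *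
      ((30 * k * n * l : ℕ) : ℝ) ^ n * vol n k (30 * k * n * l) ≤ T.h0 (30 * k * n * l) (β * l) := by
  have hn0 : (0 : ℝ) < n := by
    have : 0 < n := by omega
    exact_mod_cast this
  have hk0 : (0 : ℝ) < k := by exact_mod_cast hk
  have hk1 : (1 : ℝ) ≤ k := by exact_mod_cast hk
  have hd1 : 1 ≤ d := by omega
  have hd0 : (0 : ℝ) < d := by exact_mod_cast hd1
  set c₀ : ℕ := (k + 1) * (d + n) with hc₀
  have e1 : ∀ᶠ l : ℕ in atTop, 2 * c₀ + 6 ≤ l := eventually_ge_atTop _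
  have e2 : ∀ᶠ l : ℕ in atTop, 2 * n * (c₀ + n) ≤ l := eventually_ge_atTop _
  filter_upwards [bad, good, e1, e2] with l hbad hgood h1 h2
  set m : ℕ := 30 * k * n * l with hm
  have hl0 : 0 < l := by omega
  have hlr : (0 : ℝ) < l := by exact_mod_cast hl0
  have hmr : (m : ℝ) = 30 * k * n * l := by rw [hm]; push_cast; ring
  have hm0 : (0 : ℝ) < m := by rw [hmr]; positivity
  -- `d ≥ 2 (..)`
  obtain ⟨D, hD⟩ : ∃ D : ℕ, d = n + 2 + 60 * k * n + β + D := ⟨d - (n + 2 + 60 * k * n + β), by omega⟩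
  have hD2 : d ≤ 2 * D := by omega
  have hDr : (d : ℝ) ≤ 2 * D := by exact_mod_cast hD2
  have hA := ineqA T m l (β * l) (l * D) (by
    have h3 : (d : ℤ) = n + 2 + 60 * k * n + β + D := by exact_mod_cast hD
    have h4 : (m : ℤ) = 30 * k * n * l := by rw [hm]; push_cast; ring
    rw [h3, h4]
    push_cast
    apply le_of_eq
    ring) (by
    rw [← hc₀]
    have h5 : c₀ ≤ l := by omega
    exact h5.trans (Nat.le_mul_of_pos_right l (by omega)))
  rw [← hc₀] at hA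
  -- the good part
  have hA' : (Module.finrank ℂ (KA.good n k m l) : ℝ) * hyp n d (l * D) ≤
      T.h0 m (β * l) + ((β * l + 2 * m + c₀ : ℕ) : ℝ) * (T.rk m l * hyp (n - 1) d (d * m + c₀)) := by
    exact_mod_cast hA
  set V : ℝ := vol n k m with hV
  have hV0 : 0 ≤ V := vol_nonneg n k m
  set X : ℝ := (d : ℝ) * m with hX
  have hX0 : 0 < X := by positivity
  have hfac : (0 : ℝ) < n.factorial := by positivity
  -- lower bound of `hyp`
  have g1 : (d : ℝ) * ((1 / (90 * k * n : ℝ)) ^ n * X ^ n) / n.factorial ≤ hyp n d (l * D) := by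
    rw [div_le_iff₀ hfac]
    have hdl : d ≤ l * D := aux_d hD2 h1
    have h3 := hyp_ge n d (l * D) hdl
    have h4 : (d : ℝ) * (((l * D - d : ℕ) : ℝ)) ^ n ≤ n.factorial * hyp n d (l * D) := by
      exact_mod_cast h3
    rw [mul_comm (hyp n d (l * D) : ℝ)]
    refine le_trans ?_ h4
    rw [← mul_pow]
    have h5 : 1 / (90 * k * n : ℝ) * X ≤ ((l * D - d : ℕ) : ℝ) := by
      rw [Nat.cast_sub hdl, hX, hmr]
      push_cast
      have h6 : 1 / (90 * k * n : ℝ) * (d * (30 * k * n * l)) = d * l / 3 := by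
        field_simp
        ring
      rw [h6]
      have h7 : (6 : ℝ) ≤ l := by
        have : 6 ≤ l := by omega
        exact_mod_cast this
      exact aux_real hd0 hDr h7
    gcongr
  -- the bad part
  have g2 : ((β * l + 2 * m + c₀ : ℕ) : ℝ) * (hyp (n - 1) d (d * m + c₀) : ℝ) ≤
      d * X ^ n / n.factorial := by
    have h3 := hyp_le (n - 1) d (d * m + c₀)
    have h4 : ((n - 1).factorial : ℝ) * hyp (n - 1) d (d * m + c₀) ≤ d * (((d * m + c₀ + (n - 1) : ℕ) : ℝ)) ^ (n - 1) := by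
      exact_mod_cast h3
    have hnf : (n.factorial : ℝ) = n * (n - 1).factorial := by
      obtain ⟨a, rfl⟩ : ∃ a, n = a + 1 := ⟨n - 1, by omega⟩
      rw [Nat.factorial_succ]
      push_cast
      simp
    have h5 : ((β * l + 2 * m + c₀ : ℕ) : ℝ) ≤ d * l := by
      have : β * l + 2 * m + c₀ ≤ d * l := by
        rw [hm, hD]
        exact aux_nat (by omega) (by omega)
      exact_mod_cast this
    have h6 : (((d * m + c₀ + (n - 1) : ℕ) : ℝ)) ^ (n - 1) ≤ 2 * X ^ (n - 1) := by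
      have h7 : ((d * m + c₀ + (n - 1) : ℕ) : ℝ) ≤ X * (1 + (c₀ + n) / X) := by
        rw [mul_add, mul_div_cancel₀ _ hX0.ne', hX]
        have : ((d * m + c₀ + (n - 1) : ℕ) : ℝ) ≤ ((d * m + (c₀ + n) : ℕ) : ℝ) := by
          exact_mod_cast (by omega : d * m + c₀ + (n - 1) ≤ d * m + (c₀ + n))
        refine this.trans (le_of_eq ?_)
        push_cast
        ring
      have hx0 : (0 : ℝ) ≤ (c₀ + n) / X := by positivity
      have h8 : (1 + ((c₀ : ℝ) + n) / X) ^ (n - 1) ≤ 2 := by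
        refine pow_le_two (n - 1) _ hx0 ?_
        rw [div_mul_eq_mul_div, div_le_iff₀ hX0]
        have h9 : ((c₀ : ℝ) + n) * ((n - 1 : ℕ) : ℝ) ≤ (c₀ + n) * n := by
          have : ((n - 1 : ℕ) : ℝ) ≤ n := by exact_mod_cast Nat.sub_le n 1
          gcongr
        have h10 : 2 * (n : ℝ) * (c₀ + n) ≤ l := by exact_mod_cast h2
        have h11 : (l : ℝ) ≤ X := by
          rw [hX, hmr]
          exact aux_kn (by exact_mod_cast hd1) hk1 (by exact_mod_cast (by omega : 1 ≤ n)) hlr.le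
        linarith
      calc _ ≤ (X * (1 + (c₀ + n) / X)) ^ (n - 1) := by gcongr
        _ = X ^ (n - 1) * (1 + (c₀ + n) / X) ^ (n - 1) := by rw [mul_pow]
        _ ≤ X ^ (n - 1) * 2 := by gcongr
        _ = _ := by ring
    have hXn : X ^ n = X * X ^ (n - 1) := by
      rw [← pow_succ']
      congr 1
      omega
    have hnf0 : (0 : ℝ) < ((n - 1).factorial : ℝ) := by positivity
    rw [le_div_iff₀ hfac, hnf]
    calc ((β * l + 2 * m + c₀ : ℕ) : ℝ) * (hyp (n - 1) d (d * m + c₀) : ℝ) * (n * (n - 1).factorial)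
        = ((β * l + 2 * m + c₀ : ℕ) : ℝ) * n * ((n - 1).factorial * hyp (n - 1) d (d * m + c₀)) := by ring
      _ ≤ (d * l) * n * (d * (2 * X ^ (n - 1))) := by
          have := h4.trans (mul_le_mul_of_nonneg_left h6 hd0.le)
          gcongr
      _ = d * X ^ (n - 1) * (2 * n * l * d) := by ring
      _ ≤ d * X ^ (n - 1) * X := by
          have h12 : 2 * (n : ℝ) * l * d ≤ X := by
            rw [hX, hmr]
            exact aux_two hd0.le hk1 hn0.le hlr.le
          gcongr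
      _ = d * X ^ n := by rw [hXn]; ring
  -- comparison
  have hs0 : (0 : ℝ) ≤ (1 / (90 * k * n : ℝ)) ^ n := by positivity
  have hs1 : (1 / (90 * k * n : ℝ)) ^ n ≤ 1 := by
    apply pow_le_one₀ (by positivity)
    rw [div_le_one (by positivity)]
    exact aux_s hk1 (by exact_mod_cast (by omega : 1 ≤ n))
  set s : ℝ := (1 / (90 * k * n : ℝ)) ^ n with hs
  have hP1 : P ≤ 1 / 4 := by linarith
  set Y : ℝ := d * X ^ n / n.factorial with hY
  have hY0 : 0 ≤ Y := by positivity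
  have g3 : s * Y ≤ hyp n d (l * D) := by
    refine le_trans (le_of_eq ?_) g1
    rw [hY]
    ring
  have g4 : (1 - P) * V * (s * Y) ≤ (Module.finrank ℂ (KA.good n k m l) : ℝ) * hyp n d (l * D) := by
    have : 0 ≤ (1 - P) * V := mul_nonneg (by linarith) hV0
    gcongr
  have g5 : ((β * l + 2 * m + c₀ : ℕ) : ℝ) * (T.rk m l * hyp (n - 1) d (d * m + c₀)) ≤ P * V * Y := by
    calc ((β * l + 2 * m + c₀ : ℕ) : ℝ) * (T.rk m l * hyp (n - 1) d (d * m + c₀))
        = T.rk m l * (((β * l + 2 * m + c₀ : ℕ) : ℝ) * hyp (n - 1) d (d * m + c₀)) := by ring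
      _ ≤ (P * V) * Y := by gcongr
  have g6 : (1 - P) * V * (s * Y) - P * V * Y ≤ T.h0 m (β * l) := by linarith
  refine le_trans ?_ g6
  have e3 : 1 / 2 * s * (d ^ (n + 1) / n.factorial) * (m : ℝ) ^ n * V = 1 / 2 * s * (V * Y) := by
    rw [hY, hX]
    ring
  rw [e3]
  have hVY : 0 ≤ V * Y := mul_nonneg hV0 hY0
  have e4 : (1 - P) * V * (s * Y) - P * V * Y = ((1 - P) * s - P) * (V * Y) := by ring
  rw [e4]
  exact mul_le_mul_of_nonneg_right (aux_fin hP0 hP hs1) hVY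

end Pool.Agent.H37.KA
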