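import Pool.Agent.H47.KB.Defs

/-!
# Jet differentials: the good part and the bad part of the graded pieces

`Ω` is the cotangent bundle of a smooth hypersurface `X` of degree `d` in `ℙ^{n+1}`, `Ω(2)` is globally generated,
`K_X = O(d-n-2)`.  The graded pieces of `E_{k,m}` are the tensor products of symmetric powers of `Ω`; their sum is the
bundle attached to the `GL_n`-module of all polynomials of weight `m` in the entries of an `n × k` matrix.
-/

set_option autoImplicit false

open MvPolynomial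

namespace Pool.Agent.H37.KA

open Pool.Agent.H47.KB (wt Jets)

/-- The maximal minor with the columns `c 0, .., c (n-1)` of the generic `n × k` matrix. -/
noncomputable def minor {n k : ℕ} (c : Fin n → Fin k) : MvPolynomial (Fin k × Fin n) ℂ :=
  Matrix.det (Matrix.of fun i j : Fin n => X (c i, j))

/-- The ideal generated by the maximal minors. -/
noncomputable def minors (n k : ℕ) : Ideal (MvPolynomial (Fin k × Fin n) ℂ) :=
  Ideal.span (Set.range minor)

/-- The polynomials of weight `m` in the `p`-th power of the ideal of the maximal minors. It is a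
`GL_n`-submodule, and a quotient of a sum of modules `det^p ⊗ S^{a_1} ⊗ .. ⊗ S^{a_k}`, `∑ a_j ≤ m - n p`. -/
noncomputable def good (n k m p : ℕ) : Submodule ℂ (MvPolynomial (Fin k × Fin n) ℂ) :=
  ((minors n k) ^ p).restrictScalars ℂ ⊓ weightedHomogeneousSubmodule ℂ (wt n k) m

/-- `h⁰(O(s))` on a hypersurface of degree `d` and dimension `n`: the forms of degree `s` modulo `F`. -/
def hyp (n d s : ℕ) : ℕ := (s + n + 1).choose (n + 1) - (s + n + 1 - d).choose (n + 1)

/-- Published facts on the graded pieces of `E_{k,m}` for a very general (smooth) hypersurface `X` of degree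
`d ≥ n + k` and dimension `n ≥ 2`, so that `h0 m b` is the dimension of `H⁰(X, E_{k,m} ⊗ O(-b))` for all `m`, `b`. For
every `m` and `p` the sum of the graded pieces is `G ⊕ Q`, where `G` is the bundle attached to `Ω` and the module
`good n k m p` (complete reducibility of `GL_n`-modules), and `Y` is a smooth hyperplane section of `X`. -/
structure Pieces (n k d : ℕ) extends Jets n k d where
  /-- `h⁰(X, G ⊗ O(e))`, `h¹(X, G ⊗ O(e))`. -/
  g0 : (m p : ℕ) → ℤ → ℕ
  g1 : (m p : ℕ) → ℤ → ℕ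
  /-- `h⁰(X, Q ⊗ O(e))`, `h¹(X, Q ⊗ O(e))`. -/
  q0 : (m p : ℕ) → ℤ → ℕ
  q1 : (m p : ℕ) → ℤ → ℕ
  /-- `h⁰(Y, Q ⊗ O(e)|Y)`. -/
  qY : (m p : ℕ) → ℤ → ℕ
  /-- The rank of `Q`. -/
  rk : (m p : ℕ) → ℕ
  rank_add : ∀ m p : ℕ, Module.finrank ℂ (good n k m p) + rk m p =
    Module.finrank ℂ (weightedHomogeneousSubmodule ℂ (wt n k) m)
  /-- The filtration of Green and Griffiths (1979) and the long exact sequences: `h⁰ - h¹` of `E_{k,m} ⊗ O(-b)` is at
  least the sum over the graded pieces. -/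
  filtration : ∀ m p b : ℕ, (g0 m p (-b) : ℤ) + q0 m p (-b) - g1 m p (-b) - q1 m p (-b) ≤ h0 m b
  /-- `G = K_X^p ⊗ G'`, where `G' ⊗ O(2(m - np))` is globally generated (`Ω(2)` is), so general sections of
  `G ⊗ O(e)`, `rank G` many, are linearly independent at the general point and can be multiplied by the sections of
  `O(s)`. -/
  generated : ∀ (m p s : ℕ) (e : ℤ), (s : ℤ) + 2 * m ≤ p * ((d : ℤ) - n - 2) + e →
    Module.finrank ℂ (good n k m p) * hyp n d s ≤ g0 m p e
  /-- Griffiths' vanishing theorem (1969): `H¹(X, K_X ⊗ S^{a_1} B ⊗ .. ⊗ S^{a_k} B ⊗ (det B)^k ⊗ L) = 0` for `B = Ω(2)`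
  globally generated and `L` ample; here `det B = O(d+n-2)`, and `G`, `Q` are direct summands of sums of bundles
  `K_X^p ⊗ S^{a_1} Ω ⊗ .. ⊗ S^{a_k} Ω`, `S^{a_1} Ω ⊗ .. ⊗ S^{a_k} Ω` with `∑ a_j ≤ m`. -/
  vanish_good : ∀ (m p : ℕ) (e : ℤ), ((k : ℤ) + 1) * (d + n) + 2 * m ≤ p * ((d : ℤ) - n - 2) + e → g1 m p e = 0
  vanish_bad : ∀ (m p : ℕ) (e : ℤ), ((k : ℤ) + 1) * (d + n) + 2 * m ≤ e → q1 m p e = 0
  /-- `0 → Q(e) → Q(e+1) → Q(e+1)|Y → 0`. -/
  hyperplane : ∀ (m p : ℕ) (e : ℤ), q1 m p e ≤ q1 m p (e + 1) + qY m p (e + 1)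
  /-- `Ω = Λ^{n-1} T_X ⊗ K_X ⊂ Λ² Ω_ℙ (d) ⊂ ⨁ O(d-2)` are subbundles, so `Q|Y` is a subsheaf of a sum of copies of
  `O((d-2)m)`, and a subsheaf of rank `r` of a sum of copies of `O(s)` has at most `r h⁰(O(s))` sections. -/
  subsheaf : ∀ (m p s : ℕ) (e : ℤ), ((d : ℤ) - 2) * m + e ≤ s → qY m p e ≤ rk m p * hyp (n - 1) d s

/-- `h¹` of the bad part. -/
theorem bad_le {n k d : ℕ} (T : Pieces n k d) (m p b : ℕ) :
    T.q1 m p (-b) ≤ (b + 2 * m + (k + 1) * (d + n)) *
      (T.rk m p * hyp (n - 1) d (d * m + (k + 1) * (d + n))) := by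
  have key : ∀ J : ℕ, J ≤ b + 2 * m + (k + 1) * (d + n) →
      T.q1 m p (-b) ≤ T.q1 m p (-b + J) + J * (T.rk m p * hyp (n - 1) d (d * m + (k + 1) * (d + n))) := by
    intro J
    induction J with
    | zero => intro _; simp
    | succ J ih =>
      intro hJ
      have h1 := ih (by omega)
      have h2 := T.hyperplane m p (-(b : ℤ) + J)
      have h3 : T.qY m p (-(b : ℤ) + J + 1) ≤ T.rk m p * hyp (n - 1) d (d * m + (k + 1) * (d + n)) := by
        refine T.subsheaf m p _ _ ?_
        have h4 : ((J : ℤ) + 1) ≤ b + 2 * m + (k + 1) * (d + n) := by exact_mod_cast hJ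
        push_cast
        linarith
      have h5 : (-(b : ℤ) + ((J + 1 : ℕ) : ℤ)) = -(b : ℤ) + J + 1 := by push_cast; ring
      rw [h5]
      calc T.q1 m p (-b) ≤ T.q1 m p (-b + J) + J * (T.rk m p * hyp (n - 1) d (d * m + (k + 1) * (d + n))) := h1
        _ ≤ (T.q1 m p (-(b : ℤ) + J + 1) + T.rk m p * hyp (n - 1) d (d * m + (k + 1) * (d + n))) +
            J * (T.rk m p * hyp (n - 1) d (d * m + (k + 1) * (d + n))) := by
          gcongr
          exact h2.trans (Nat.add_le_add_left h3 _)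
        _ = _ := by ring
  have h1 := key _ le_rfl
  have h2 : T.q1 m p (-(b : ℤ) + ((b + 2 * m + (k + 1) * (d + n) : ℕ) : ℤ)) = 0 := by
    refine T.vanish_bad m p _ ?_
    push_cast
    linarith
  rw [h2, zero_add] at h1
  exact h1

/-- (A): the number of sections in terms of the ranks of the good and of the bad part. -/
theorem ineqA {n k d : ℕ} (T : Pieces n k d) (m p b c : ℕ)
    (hc : (c : ℤ) + 2 * m + b ≤ p * ((d : ℤ) - n - 2)) (hc0 : (k + 1) * (d + n) ≤ c) :
    Module.finrank ℂ (good n k m p) * hyp n d c ≤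
      T.h0 m b + (b + 2 * m + (k + 1) * (d + n)) *
        (T.rk m p * hyp (n - 1) d (d * m + (k + 1) * (d + n))) := by
  have h1 := T.generated m p c (-b) (by linarith)
  have h2 : T.g1 m p (-b) = 0 := by
    refine T.vanish_good m p (-b) ?_
    have : ((k : ℤ) + 1) * (d + n) ≤ c := by exact_mod_cast hc0
    linarith
  have h3 := T.filtration m p b
  rw [h2] at h3
  have h4 := bad_le T m p b
  have h5 : T.g0 m p (-b) ≤ T.h0 m b + T.q1 m p (-b) := by
    have : (T.g0 m p (-b) : ℤ) ≤ T.h0 m b + T.q1 m p (-b) := by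
      have h6 : (0 : ℤ) ≤ T.q0 m p (-b) := Int.natCast_nonneg _
      push_cast at h3
      linarith
    exact_mod_cast this
  exact h1.trans (h5.trans (Nat.add_le_add_left h4 _))

end Pool.Agent.H37.KA
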