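import Pool.Agent.H37.KA.Fields

set_option autoImplicit false

namespace Pool.Agent.H37.KA

lemma choose_add_ge (a n d : ℕ) : d * a.choose n + a.choose (n + 1) ≤ (a + d).choose (n + 1) := by
  induction d with
  | zero => simp
  | succ d ih =>
    rw [← add_assoc, Nat.choose_succ_succ]
    have h1 : a.choose n ≤ (a + d).choose n := Nat.choose_le_choose _ (by omega)
    calc (d + 1) * a.choose n + a.choose (n + 1) = a.choose n + (d * a.choose n + a.choose (n + 1)) := by ring
      _ ≤ _ := Nat.add_le_add h1 ih

lemma choose_sub_le (A n d : ℕ) : (A + 1).choose (n + 1) ≤ d * A.choose n + (A + 1 - d).choose (n + 1) := by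
  induction d with
  | zero => simp
  | succ d ih =>
    refine ih.trans ?_
    by_cases h : d ≤ A
    · obtain ⟨e, rfl⟩ : ∃ e, A = d + e := ⟨A - d, by omega⟩
      have e1 : d + e + 1 - d = e + 1 := by omega
      have e2 : d + e + 1 - (d + 1) = e := by omega
      rw [e1, e2, Nat.choose_succ_succ]
      have h1 : e.choose n ≤ (d + e).choose n := Nat.choose_le_choose _ (by omega)
      nlinarith
    · have e1 : A + 1 - d = 0 := by omega
      have e2 : A + 1 - (d + 1) = 0 := by omega
      rw [e1, e2]
      nlinarith [Nat.zero_le (A.choose n)]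

/-- lower bound for the Hilbert function -/
lemma hyp_ge (n d c : ℕ) (h : d ≤ c) : d * (c - d) ^ n ≤ n.factorial * hyp n d c := by
  unfold hyp
  obtain ⟨e, rfl⟩ : ∃ e, c = d + e := ⟨c - d, by omega⟩
  have e1 : d + e + n + 1 - d = e + n + 1 := by omega
  have e2 : d + e - d = e := by omega
  rw [e1, e2]
  have h1 := choose_add_ge (e + n + 1) n d
  have e3 : e + n + 1 + d = d + e + n + 1 := by ring
  rw [e3] at h1
  have h2 : d * (e + n + 1).choose n ≤ (d + e + n + 1).choose (n + 1) - (e + n + 1).choose (n + 1) := by
    omega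
  have h3 : e ^ n ≤ n.factorial * (e + n + 1).choose n := by
    rw [← Nat.descFactorial_eq_factorial_mul_choose]
    refine le_trans ?_ (Nat.pow_sub_le_descFactorial _ _)
    exact Nat.pow_le_pow_left (by omega) n
  calc d * e ^ n ≤ d * (n.factorial * (e + n + 1).choose n) := Nat.mul_le_mul_left _ h3
    _ = n.factorial * (d * (e + n + 1).choose n) := by ring
    _ ≤ _ := Nat.mul_le_mul_left _ h2

/-- upper bound for the Hilbert function -/
lemma hyp_le (n d s : ℕ) : n.factorial * hyp n d s ≤ d * (s + n) ^ n := by
  unfold hyp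
  have h1 := choose_sub_le (s + n) n d
  have h2 : (s + n + 1).choose (n + 1) - (s + n + 1 - d).choose (n + 1) ≤ d * (s + n).choose n := by
    omega
  calc n.factorial * ((s + n + 1).choose (n + 1) - (s + n + 1 - d).choose (n + 1))
      ≤ n.factorial * (d * (s + n).choose n) := Nat.mul_le_mul_left _ h2
    _ = d * (n.factorial * (s + n).choose n) := by ring
    _ ≤ d * (s + n) ^ n := by
      refine Nat.mul_le_mul_left _ ?_
      rw [← Nat.descFactorial_eq_factorial_mul_choose]
      exact Nat.descFactorial_le_pow _ _

end Pool.Agent.H37.KA
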