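import Pool.Agent.H37.KA.Compare
import Pool.Agent.H47.KB.Asym

set_option autoImplicit false

open Filter Topology

namespace Pool.Agent.H37.KA

open Pool.Agent.H47.KB (wt Jets cnt core GGL)

/-- Stirling's upper bound -/
lemma factorial_le (M : ℕ) (hM : 1 ≤ M) :
    (M.factorial : ℝ) ≤ Real.exp 1 * √M * ((M : ℝ) / Real.exp 1) ^ M := by
  obtain ⟨l, rfl⟩ : ∃ l, M = l + 1 := ⟨M - 1, by omega⟩
  have h1 := Stirling.stirlingSeq'_antitone (Nat.zero_le l)
  simp only [Function.comp, Nat.succ_eq_add_one, zero_add] at h1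
  rw [Stirling.stirlingSeq_one] at h1
  unfold Stirling.stirlingSeq at h1
  have h2 : (0 : ℝ) < √(2 * ((l + 1 : ℕ) : ℝ)) * (((l + 1 : ℕ) : ℝ) / Real.exp 1) ^ (l + 1) := by
    positivity
  rw [div_le_iff₀ h2] at h1
  refine h1.trans (le_of_eq ?_)
  rw [Real.sqrt_mul (by norm_num)]
  field_simp

/-- Green-Griffiths-Lang from the two counts and two numerical inequalities. -/
theorem ggl_of_counts {n k d : ℕ} (T : Pieces n k d) (hn : 2 ≤ n) (hk : 1 ≤ k) (β : ℕ)
    (hd : 2 * (n + 2 + 60 * k * n + β) ≤ d) (P : ℝ) (hP0 : 0 ≤ P)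
    (hP : P ≤ 1 / 4 * (1 / (90 * k * n : ℝ)) ^ n)
    (bad : ∀ᶠ l : ℕ in atTop, (T.rk (30 * k * n * l) l : ℝ) ≤ P * vol n k (30 * k * n * l))
    (good : ∀ᶠ l : ℕ in atTop, (1 - P) * vol n k (30 * k * n * l) ≤
      (Module.finrank ℂ (good n k (30 * k * n * l) l) : ℝ))
    (q : ℝ) (hq : 0 ≤ q) (hqβ : q * (5 * k - 1) * (30 * k * n) < β)
    (hH : Real.exp 1 * √((k * n - 1 : ℕ) : ℝ) * (2 * √k) ^ n *
      Real.exp (-(q * (k * n - 1 : ℕ) / 2)) < (1 / (90 * k * n : ℝ)) ^ n) : GGL n d := by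
  have hk0 : (0 : ℝ) < k := by exact_mod_cast hk
  have hn0 : (0 : ℝ) < n := by
    have : 0 < n := by omega
    exact_mod_cast this
  have hd1 : 1 ≤ d := by omega
  have hkn : 2 ≤ k * n := by nlinarith
  have hD : (0 : ℝ) < 30 * k * n := by positivity
  set M : ℕ := k * n - 1 with hM
  have hM1 : 1 ≤ M := by omega
  set κ : ℝ := 1 / 2 * (1 / (90 * k * n : ℝ)) ^ n * (d ^ (n + 1) / n.factorial) /
    (M.factorial * (k.factorial : ℝ) ^ n) with hκ
  refine core T.toJets (by omega) hk hkn hd1 q κ ((β : ℚ) / (30 * k * n)) hq ?_ ?_ ?_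
  · push_cast
    rw [lt_div_iff₀ hD]
    exact hqβ
  · obtain ⟨l₀, hl⟩ := eventually_atTop.1 (compare T hn hk β hd P hP0 hP bad good)
    refine ⟨30 * k * n, by positivity, 30 * k * n * l₀, ?_⟩
    rintro m hm ⟨l, rfl⟩ b hb
    have hpos : 0 < 30 * k * n := by positivity
    have h1 : l₀ ≤ l := Nat.le_of_mul_le_mul_left hm hpos
    have h2 : b = β * l := by
      have hc : ((30 * k * n : ℕ) : ℚ) ≠ 0 := by exact_mod_cast hpos.ne'
      have : (b : ℚ) = ((β * l : ℕ) : ℚ) := by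
        rw [hb]
        push_cast at hc ⊢
        field_simp
      exact_mod_cast this
    rw [h2]
    refine le_trans (le_of_eq ?_) (hl l h1)
    have h3 : n + k * n - 1 = M + n := by omega
    rw [h3, pow_add, hκ, vol]
    ring
  · unfold cnt
    rw [← hM]
    have hX : (0 : ℝ) < (d : ℝ) ^ (n + 1) / n.factorial := by
      have : (0 : ℝ) < d := by exact_mod_cast hd1
      positivity
    have h7 : Real.exp (M : ℝ) / (M : ℝ) ^ M ≤ Real.exp 1 * √M / M.factorial := by
      have hM0 : (0 : ℝ) < M := by exact_mod_cast hM1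
      rw [div_le_div_iff₀ (by positivity) (by positivity)]
      have h8 := factorial_le M hM1
      have h9 : ((M : ℝ) / Real.exp 1) ^ M = (M : ℝ) ^ M / Real.exp (M : ℝ) := by
        rw [div_pow, ← Real.exp_nat_mul, mul_one]
      rw [h9] at h8
      calc Real.exp (M : ℝ) * (M.factorial : ℝ) ≤
            Real.exp (M : ℝ) * (Real.exp 1 * √M * ((M : ℝ) ^ M / Real.exp (M : ℝ))) := by gcongr
        _ = Real.exp 1 * √M * (M : ℝ) ^ M := by field_simp
    have h10 : Real.exp ((M : ℝ) - q * M / 2) = Real.exp M * Real.exp (-(q * M / 2)) := by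
      rw [← Real.exp_add]
      congr 1
    rw [h10]
    calc Real.exp (M : ℝ) * Real.exp (-(q * M / 2)) / (M : ℝ) ^ M *
          ((2 * √k) ^ n / (2 * (k.factorial : ℝ) ^ n)) * ((d : ℝ) ^ (n + 1) / n.factorial)
        = (Real.exp (M : ℝ) / (M : ℝ) ^ M) * (Real.exp (-(q * M / 2)) * (2 * √k) ^ n) *
          (((d : ℝ) ^ (n + 1) / n.factorial) / (2 * (k.factorial : ℝ) ^ n)) := by ring
      _ ≤ (Real.exp 1 * √M / M.factorial) * (Real.exp (-(q * M / 2)) * (2 * √k) ^ n) *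
          (((d : ℝ) ^ (n + 1) / n.factorial) / (2 * (k.factorial : ℝ) ^ n)) := by gcongr
      _ = (Real.exp 1 * √M * (2 * √k) ^ n * Real.exp (-(q * M / 2))) *
          (((d : ℝ) ^ (n + 1) / n.factorial) / (2 * (M.factorial * (k.factorial : ℝ) ^ n))) := by ring
      _ < (1 / (90 * k * n : ℝ)) ^ n *
          (((d : ℝ) ^ (n + 1) / n.factorial) / (2 * (M.factorial * (k.factorial : ℝ) ^ n))) := by
          gcongr
      _ = κ := by rw [hκ]; ring

end Pool.Agent.H37.KA
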